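import Pool.Agent.H48.ER.Targets

set_option autoImplicit false

open Pool.Agent.H48.ER

namespace Pool.Agent.H61.ER

theorem pf_D3A : T_D3A := by
  intro V G v x y z hN hv hxy hxz hyz hne hE
  have h1 : ∃ (n : ℕ) (R : Set V), IP G n x z R ∧ ¬ Even n := by
    by_contra hc
    apply hE
    refine ⟨hne, hxz, ?_⟩
    intro n R h
    by_contra h2
    exact hc ⟨n, R, h, h2⟩
  obtain ⟨n, R, hR, hn⟩ := h1
  have hvx : G.Adj v x := (hv x).2 (Or.inl rfl)
  have hvz : G.Adj v z := (hv z).2 (Or.inr (Or.inr rfl))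
  have hn0 : n ≠ 0 := by
    intro h
    exact hn (h ▸ (⟨0, rfl⟩ : Even 0))
  have hn1 : n ≠ 1 := by
    intro h
    exact hxz (hR.adj_iff.2 h)
  have hvR : v ∉ R := by
    intro hm
    obtain ⟨i, j, R1, R2, p1, p2, hij, _, _, _⟩ := hR.split hm
    have e1 : i = 1 := p1.adj_iff.1 hvx.symm
    have e2 : j = 1 := p2.adj_iff.1 hvz
    apply hn
    rw [← hij, e1, e2]
    exact ⟨1, rfl⟩
  have hyR : y ∈ R := by
    by_contra hy
    apply hn
    refine hN n x z v R hR (by omega) hvR hvx hvz ?_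
    intro w hw ha
    rcases (hv w).1 ha with h | h | h
    · exact Or.inl h
    · exact absurd (h ▸ hw) hy
    · exact Or.inr h
  obtain ⟨m, rfl⟩ : ∃ m, n = m + 1 := ⟨n - 1, by omega⟩
  obtain ⟨x', _, _, h3, h4⟩ := hR.tail
  have e : y = x' := h4 y hyR hxy
  subst e
  have hm : Even m := by
    rcases Nat.even_or_odd m with h | h
    · exact h
    · exact absurd h.add_one hn
  have hm2 : 2 ≤ m := by
    obtain ⟨r, hr⟩ := hm
    omega
  refine ⟨m, R \ {x}, h3, hm2, hm, fun h => hvR h.1, fun h => h.2 rfl, ?_⟩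
  intro w hw ha
  exact h4 w hw.1 ha

end Pool.Agent.H61.ER
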